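import Pool.Agent.helper42.NS.Spec

/-!
# Row nos:VTX
-/

namespace Pool.Agent.helper42.NS

open Polynomial Matrix

lemma VTX_eq {K : Type} [Field K] {lam : K} {t : ℕ} {H : Matrix (Fin t) (Fin t) ℤ}
    {b : Fin t → Bool} {z : Fin (t + 1) → K} (hz : z ∈ EigK K lam (bord H (ind b))) (i : Fin t) :
    (ind b i : K) * z 0 + ∑ j : Fin t, (H i j : K) * z j.succ = lam * z i.succ := by
  have h1 := mem_EigK.1 hz i.succ
  rw [Fin.sum_univ_succ] at h1
  simpa using h1

lemma VTX_mem {K : Type} [Field K] {lam : K} {t : ℕ} {H : Matrix (Fin t) (Fin t) ℤ}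
    {b : Fin t → Bool} {z : Fin (t + 1) → K} (hz : z ∈ EigK K lam (bord H (ind b))) (h0 : z 0 = 0) :
    (fun i : Fin t => z i.succ) ∈ EigK K lam H := by
  rw [mem_EigK]
  intro i
  have h1 := VTX_eq hz i
  rw [h0, mul_zero, zero_add] at h1
  exact h1

lemma VTX_zero {K : Type} [Field K] {lam : K} {t : ℕ} {H : Matrix (Fin t) (Fin t) ℤ}
    {b : Fin t → Bool} (hH : ∀ i j, H i j = H j i) {z : Fin (t + 1) → K}
    (hz : z ∈ EigK K lam (bord H (ind b)))
    {u : Fin t → K} (hu : u ∈ EigK K lam H) (hub : dotb b u ≠ 0) : z 0 = 0 := by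
  have h1 : ∑ i, u i * ((ind b i : K) * z 0 + ∑ j : Fin t, (H i j : K) * z j.succ) =
      ∑ i, u i * (lam * z i.succ) := Finset.sum_congr rfl (fun i _ => by rw [VTX_eq hz i])
  have h2 : ∑ i, u i * (∑ j : Fin t, (H i j : K) * z j.succ) = ∑ i, u i * (lam * z i.succ) := by
    have h3 : ∑ i, u i * (∑ j : Fin t, (H i j : K) * z j.succ) =
        ∑ j, z j.succ * ∑ i, (H j i : K) * u i := by
      simp only [Finset.mul_sum]
      rw [Finset.sum_comm]
      apply Finset.sum_congr rfl
      intro i _
      apply Finset.sum_congr rfl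
      intro j _
      rw [hH i j]
      ring
    rw [h3]
    apply Finset.sum_congr rfl
    intro j _
    rw [mem_EigK.1 hu j]
    ring
  simp only [mul_add] at h1
  rw [Finset.sum_add_distrib] at h1
  rw [h2] at h1
  have h4 : ∑ i, u i * ((ind b i : K) * z 0) = 0 := by
    have := h1
    rw [add_eq_right] at this
    exact this
  have h5 : ∑ i, u i * ((ind b i : K) * z 0) = dotb b u * z 0 := by
    unfold dotb
    rw [Finset.sum_mul]
    apply Finset.sum_congr rfl
    intro i _
    unfold ind
    by_cases h : b i = true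
    · simp [h]
    · simp [h]
  rw [h5] at h4
  exact (mul_eq_zero.1 h4).resolve_left hub

/-- Row VTX. -/
theorem VTX : VTX_stmt := by
  intro K _ lam t H b hH
  constructor
  · let φ : EigK K lam (bord H (ind b)) →ₗ[K] K :=
      (LinearMap.proj (0 : Fin (t + 1))).comp (EigK K lam (bord H (ind b))).subtype
    have hφ : ∀ z, φ z = (z : Fin (t + 1) → K) 0 := fun _ => rfl
    let ψ : LinearMap.ker φ →ₗ[K] EigK K lam H :=
      { toFun := fun z => ⟨fun i => (z : EigK K lam (bord H (ind b))).1 i.succ,
          VTX_mem z.1.2 (by have := z.2; rw [LinearMap.mem_ker, hφ] at this; exact this)⟩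
        map_add' := fun _ _ => rfl
        map_smul' := fun _ _ => rfl }
    have hψ : Function.Injective ψ := by
      intro z z' hzz
      apply Subtype.ext
      apply Subtype.ext
      funext i
      have hz := z.2
      have hz' := z'.2
      rw [LinearMap.mem_ker, hφ] at hz hz'
      refine Fin.cases ?_ (fun j => ?_) i
      · rw [hz, hz']
      · have := congrArg Subtype.val hzz
        exact congrFun this j
    have h1 := LinearMap.finrank_range_add_finrank_ker φ
    have h2 := LinearMap.finrank_le_finrank_of_injective hψ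
    have h3 : Module.finrank K (LinearMap.range φ) ≤ 1 := by
      have := Submodule.finrank_le (LinearMap.range φ)
      rwa [Module.finrank_self] at this
    omega
  · rintro ⟨u, hu, hub⟩
    let ψ : EigK K lam (bord H (ind b)) →ₗ[K] EigK K lam H :=
      { toFun := fun z => ⟨fun i => z.1 i.succ, VTX_mem z.2 (VTX_zero hH z.2 hu hub)⟩
        map_add' := fun _ _ => rfl
        map_smul' := fun _ _ => rfl }
    have hψ : Function.Injective ψ := by
      intro z z' hzz
      apply Subtype.ext
      funext i
      refine Fin.cases ?_ (fun j => ?_) i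
      · rw [VTX_zero hH z.2 hu hub, VTX_zero hH z'.2 hu hub]
      · have := congrArg Subtype.val hzz
        exact congrFun this j
    exact LinearMap.finrank_le_finrank_of_injective hψ

end Pool.Agent.helper42.NS
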